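import Pool.Agent.H94.G4T.M100
import Pool.Agent.H94.G4T.M95

/-!
# G4 C PT: the value of the jet form on a sheet

`pT P a φ y x`, for a representative `x` of `φ y`.  It is the value on every slice through `y` (`pval_pT`), invariant under translations (`pT_add`); in a box on `T` its norm is a continuous
function (`pT_norm`, `QY_analytic`).
-/

set_option autoImplicit false

open Topology Filter Metric

namespace Pool.Agent.G4.C

open Pool.Agent.H36.BP (EN fs wd)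
open Pool.Agent.H14.PP (IsCone)
open Pool.Agent.H62.EF (MN pr)
open Pool.Agent.AD (Vd Chart Charts)
open Pool.Agent.TG (TMap Lat Str ms tl Gd)
open Pool.Agent.G3.A (Tb)
open Pool.Agent.G3.C

variable {N k : ℕ} {X : Set (EN N)} {Λ : AddSubgroup (Vd (k + 1))} {u : EN N → Vd (k + 1)} {ν a b c : Vd (k + 1)} {m : ℕ} {ρ : ℝ} {E : Submodule ℝ (Vd (k + 1))}
  {D Bad T : Set (Vd (k + 1))} {SS : Set (Vd (k + 1) → MN N)} {φ : Vd (k + 1) → MN N} {χ : Chart (k + 2) X} {w : ℕ → Vd (k + 1) → ℂ} {y₀ : Vd (k + 1)} {r : ℝ}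

/-- the value of the jet form on the sheet `φ` at `y`, for the representative `x` of `φ y` -/
noncomputable def pT (P : JForm X Λ u ν m) (a : Vd (k + 1)) (φ : Vd (k + 1) → MN N) (y : Vd (k + 1)) (x : EN N) : ℂ := pval P a y (sl φ a ν y) 0 0 x

private theorem box_rep (hX : IsCone X) {Φ : ℝ → ℂ → MN N} {w : ℕ → ℝ → ℂ → ℂ} {s : ℝ} {z : ℂ} (B : Box X Λ u a ν b Φ χ c ρ w s z r) {x : EN N} (hx : x ≠ 0)
    (hΦ : Φ s z = pr x) : ∃ α : ℂ, α ≠ 0 ∧ χ.σ (cz b ν a c ρ (w 0 s z) s z) = α • x := by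
  have hs : s ∈ Set.Ioo (s - r) (s + r) := ⟨by linarith [B.pos], by linarith [B.pos]⟩
  have hz : z ∈ ball z r := mem_ball_self B.pos
  have h := B.eq s hs z hz
  rw [hΦ] at h
  refine (Pool.Agent.H62.EF.pr_eq_iff (fun h0 => ?_) hx).1 h.symm
  have h1 := (χ.σ_mem _ (B.mem s hs z hz)).1
  rw [h0] at h1
  exact hX.zero_notMem h1

theorem pval_pT (hX : IsCone X) (P : JForm X Λ u ν m) {s : ℝ} {z : ℂ} (hS : Smo X Λ u a ν b (sl φ a ν b) s z)
    (hS' : Smo X Λ u a ν (b + (s : ℂ) • ν + z • a) (sl φ a ν (b + (s : ℂ) • ν + z • a)) 0 0) {x : EN N} (hx : x ≠ 0) (hφ : φ (b + (s : ℂ) • ν + z • a) = pr x) :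
    pval P a b (sl φ a ν b) s z x = pT P a φ (b + (s : ℂ) • ν + z • a) x := by
  obtain ⟨χ, c, ρ, w, r, B⟩ := hS
  obtain ⟨χ', c', ρ', w', r', B'⟩ := hS'
  have h0 : sl φ a ν (b + (s : ℂ) • ν + z • a) 0 0 = pr x := by
    have h1 := sl_add (φ := φ) (ν := ν) (a := a) b s 0 z 0
    rw [add_zero, add_zero] at h1
    rw [← h1]
    exact hφ
  obtain ⟨α, hα0, hα⟩ := box_rep hX B hx hφ
  obtain ⟨α', hα'0, hα'⟩ := box_rep hX B' hx h0
  unfold pT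
  rw [pval_eq hX B P hα hα0, pval_eq hX B' P hα' hα'0]
  refine QF_unique hX B B' (Eventually.of_forall fun t => ?_) P hα hα' hα0 hα'0
  have h1 := sl_add (φ := φ) (ν := ν) (a := a) b s (0 + t) z 0
  rw [add_zero] at h1
  rw [← h1, zero_add]

/-- the box for another base point -/
private theorem box_base {Φ : ℝ → ℂ → MN N} {w : ℕ → ℝ → ℂ → ℂ} {s : ℝ} {z : ℂ} {y l : Vd (k + 1)} (B : Box X Λ u a ν (y + l) Φ χ c ρ w s z r) (hl : l ∈ Λ) :
    Box X Λ u a ν y Φ χ (c - l) ρ w s z r := by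
  have hcz : ∀ x s z : ℂ, cz y ν a (c - l) ρ x s z = cz (y + l) ν a c ρ x s z := by
    intro x s z
    rw [cz_eq, cz_eq]
    unfold cy
    congr 2
    abel
  refine ⟨B.pos, ⟨B.str.pos, fun p hp => ?_⟩, B.jet, fun s hs z hz => ?_, fun s hs z hz => ?_⟩
  · have h1 := Λ.add_mem (B.str.lift p hp) hl
    have e : u (χ.σ p) - ms (c - l) ρ p = u (χ.σ p) - ms c ρ p + l := by
      unfold ms
      abel
    rw [e]
    exact h1
  · rw [hcz]
    exact B.mem s hs z hz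
  · rw [hcz]
    exact B.eq s hs z hz

theorem pT_add (hX : IsCone X) (P : JForm X Λ u ν m) {y l : Vd (k + 1)} (hl : l ∈ Λ) {φ' : Vd (k + 1) → MN N}
    (h : ∀ (s : ℝ) (z : ℂ), φ' (y + (s : ℂ) • ν + z • a) = φ (y + (s : ℂ) • ν + z • a + l)) (hS : Smo X Λ u a ν (y + l) (sl φ a ν (y + l)) 0 0) {x : EN N} (hx : x ≠ 0)
    (hφ : φ (y + l) = pr x) : pT P a φ' y x = pT P a φ (y + l) x := by
  have hsl : sl φ' a ν y = sl φ a ν (y + l) := by
    funext s z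
    show φ' (y + (s : ℂ) • ν + z • a) = φ (y + l + (s : ℂ) • ν + z • a)
    rw [h]
    congr 1
    abel
  obtain ⟨χ, c, ρ, w, r, B⟩ := hS
  have h0 : sl φ a ν (y + l) 0 0 = pr x := by
    rw [← hφ]
    show φ (y + l + ((0 : ℝ) : ℂ) • ν + (0 : ℂ) • a) = φ (y + l)
    congr 1
    simp
  obtain ⟨α, hα0, hα⟩ := box_rep hX B hx h0
  have hcz : ∀ x s z : ℂ, cz y ν a (c - l) ρ x s z = cz (y + l) ν a c ρ x s z := by
    intro x s z
    rw [cz_eq, cz_eq]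
    unfold cy
    congr 2
    abel
  have hα' : χ.σ (cz y ν a (c - l) ρ (w 0 0 0) ((0 : ℝ) : ℂ) 0) = α • x := by
    rw [hcz]
    exact hα
  unfold pT
  rw [hsl, pval_eq hX B P hα hα0, pval_eq hX (box_base B hl) P hα' hα0]
  congr 1
  unfold QF
  congr 2
  funext t
  unfold crv
  rw [hcz]

/-! ### the jet form in a straight chart, with the base point as a variable -/

/-- the curve over `y + t ν` with the jet `v` of the first coordinate -/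
noncomputable def cvy (ν : Vd (k + 1)) (χ : Chart (k + 2) X) (c : Vd (k + 1)) (ρ : ℝ) (q : Vd (k + 1) × (Fin (m + 1) → ℂ)) (t : ℂ) : EN N :=
  χ.σ (cy c ρ (pol q.2 t) (q.1 + t • ν))

/-- the jet form in the straight chart -/
noncomputable def QY (P : JForm X Λ u ν m) (χ : Chart (k + 2) X) (c : Vd (k + 1)) (ρ : ℝ) (q : Vd (k + 1) × (Fin (m + 1) → ℂ)) : ℂ := P.toFun (jt m (cvy ν χ c ρ q))

theorem cy_analytic {G : Type*} [NormedAddCommGroup G] [NormedSpace ℂ G] {f : G → ℂ} {g : G → Vd (k + 1)} {p : G} (hf : AnalyticAt ℂ f p) (hg : AnalyticAt ℂ g p) :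
    AnalyticAt ℂ (fun q => cy c ρ (f q) (g q)) p := by
  rw [analyticAt_pi_iff]
  intro i
  refine Fin.cases ?_ (fun j => ?_) i
  · exact hf
  · have h1 : AnalyticAt ℂ (fun q => (ρ : ℂ)⁻¹ * (g q j - c j)) p := analyticAt_const.mul ((analyticAt_pi_iff.1 hg j).sub analyticAt_const)
    exact h1

theorem QY_eq (P : JForm X Λ u ν m) (a : Vd (k + 1)) (χ : Chart (k + 2) X) (c : Vd (k + 1)) (ρ : ℝ) (y : Vd (k + 1)) (v : Fin (m + 1) → ℂ) :
    QF P y a χ c ρ (0, 0, v) = QY P χ c ρ (y, v) := by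
  unfold QF QY
  congr 2
  funext t
  unfold crv cvy
  rw [cz_eq]
  simp

private theorem fam (hs : Str Λ u χ c ρ) {q : Vd (k + 1) × (Fin (m + 1) → ℂ)} (hq : cy c ρ (q.2 0) q.1 ∈ ball (0 : Vd (k + 2)) 2) :
    AnalyticAt ℂ (fun y : (Vd (k + 1) × (Fin (m + 1) → ℂ)) × ℂ => cvy ν χ c ρ y.1 y.2) (q, 0) ∧
      ∀ᶠ y in 𝓝 ((q, 0) : (Vd (k + 1) × (Fin (m + 1) → ℂ)) × ℂ), cvy ν χ c ρ y.1 y.2 ∈ X ∧
        u (cvy ν χ c ρ y.1 y.2) - (u (cvy ν χ c ρ y.1 0) + y.2 • ν) ∈ Λ := by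
  set G : (Vd (k + 1) × (Fin (m + 1) → ℂ)) × ℂ → Vd (k + 2) := fun y => cy c ρ (pol y.1.2 y.2) (y.1.1 + y.2 • ν) with hG
  have hGan : ∀ y, AnalyticAt ℂ G y := by
    intro y
    refine cy_analytic (pol_analytic ?_ analyticAt_snd) (AnalyticAt.add ?_ (analyticAt_snd.smul analyticAt_const))
    · exact AnalyticAt.fun_comp (g := Prod.snd) analyticAt_snd analyticAt_fst
    · exact AnalyticAt.fun_comp (g := Prod.fst) analyticAt_fst analyticAt_fst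
  have hG0 : ∀ p : Vd (k + 1) × (Fin (m + 1) → ℂ), G (p, 0) = cy c ρ (p.2 0) p.1 := by
    intro p
    simp only [hG, pol_zero, zero_smul, add_zero]
  have hmem : G (q, 0) ∈ ball (0 : Vd (k + 2)) 2 := by
    rw [hG0]
    exact hq
  constructor
  · exact AnalyticAt.fun_comp (g := χ.σ) (f := G) (χ.σ_an _ hmem) (hGan _)
  · have h1 : ∀ᶠ y in 𝓝 ((q, 0) : (Vd (k + 1) × (Fin (m + 1) → ℂ)) × ℂ), G y ∈ ball (0 : Vd (k + 2)) 2 :=
      (hGan _).continuousAt.eventually (isOpen_ball.mem_nhds hmem)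
    have h2 : ∀ᶠ y in 𝓝 ((q, 0) : (Vd (k + 1) × (Fin (m + 1) → ℂ)) × ℂ), G (y.1, 0) ∈ ball (0 : Vd (k + 2)) 2 := by
      have hc : ContinuousAt (fun y : (Vd (k + 1) × (Fin (m + 1) → ℂ)) × ℂ => G (y.1, 0)) (q, 0) := by
        refine ContinuousAt.comp (g := G) (f := fun y : (Vd (k + 1) × (Fin (m + 1) → ℂ)) × ℂ => (y.1, (0 : ℂ))) (hGan _).continuousAt ?_
        fun_prop
      exact hc.eventually (isOpen_ball.mem_nhds hmem)
    filter_upwards [h1, h2] with y hy1 hy2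
    refine ⟨(χ.σ_mem _ hy1).1, ?_⟩
    have h3 := hs.lift _ hy1
    have h4 := hs.lift _ hy2
    have hρ : (ρ : ℂ) ≠ 0 := by exact_mod_cast hs.pos.ne'
    have hms : ∀ (x : ℂ) (y : Vd (k + 1)), ms c ρ (cy c ρ x y) = y := by
      intro x y
      have e : tl (cy c ρ x y) = (ρ : ℂ)⁻¹ • (y - c) := rfl
      unfold ms
      rw [e, smul_smul, mul_inv_cancel₀ hρ, one_smul]
      abel
    have h6 : u (χ.σ (G y)) - (u (χ.σ (G (y.1, 0))) + y.2 • ν) =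
        (u (χ.σ (G y)) - ms c ρ (G y)) - (u (χ.σ (G (y.1, 0))) - ms c ρ (G (y.1, 0))) := by
      simp only [hG]
      rw [hms, hms, zero_smul, add_zero]
      abel
    change u (χ.σ (G y)) - (u (χ.σ (G (y.1, 0))) + y.2 • ν) ∈ Λ
    rw [h6]
    exact Λ.sub_mem h3 h4

theorem QY_analytic (P : JForm X Λ u ν m) (hs : Str Λ u χ c ρ) {q : Vd (k + 1) × (Fin (m + 1) → ℂ)} (hq : cy c ρ (q.2 0) q.1 ∈ ball (0 : Vd (k + 2)) 2) :
    AnalyticAt ℂ (QY P χ c ρ) q := by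
  obtain ⟨h1, h2⟩ := fam (ν := ν) hs hq
  refine P.analytic (Vd (k + 1) × (Fin (m + 1) → ℂ)) (fun y => cvy ν χ c ρ y.1 y.2) q h1 h2 ⟨χ, c, ρ, hs, cy c ρ (q.2 0) q.1, hq, ?_⟩
  change χ.σ _ = χ.σ (cy c ρ (pol q.2 0) (q.1 + (0 : ℂ) • ν))
  rw [pol_zero, zero_smul, add_zero]

/-- in a box the norm of the value is the norm of the local expression -/
theorem BoxT.pT_norm (hX : IsCone X) (B : BoxT X Λ u a ν T φ χ c ρ w y₀ r) (P : JForm X Λ u ν m) {y : Vd (k + 1)} (hT : ∀ (s : ℝ) (z : ℂ), y + (s : ℂ) • ν + z • a ∈ T)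
    (hy : y ∈ ball y₀ r) {x : EN N} (hx : x ≠ 0) (hφ : φ y = pr x) :
    ‖pT P a φ y x‖ * ‖x‖ = ‖QY P χ c ρ (y, fun j => w j y)‖ * ‖χ.σ (cy c ρ (w 0 y) y)‖ := by
  have e0 : y + ((0 : ℝ) : ℂ) • ν + (0 : ℂ) • a = y := by simp
  obtain ⟨r', B'⟩ := B.box (y := y) (s₀ := 0) (z₀ := 0) hT (by rw [e0]; exact hy)
  have h0 : sl φ a ν y 0 0 = pr x := by
    rw [← hφ]
    show φ (y + ((0 : ℝ) : ℂ) • ν + (0 : ℂ) • a) = φ y
    rw [e0]
  obtain ⟨α, hα0, hα⟩ := box_rep hX B' hx h0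
  unfold pT
  rw [pval_eq hX B' P hα hα0, norm_mul, mul_assoc, ← norm_smul, ← hα]
  have e1 : ∀ j, wsl w a ν y j 0 0 = w j y := fun j => by
    show w j (y + ((0 : ℝ) : ℂ) • ν + (0 : ℂ) • a) = w j y
    rw [e0]
  have e2 : Jt m (wsl w a ν y) 0 0 = (0, 0, fun j : Fin (m + 1) => w j y) := by
    unfold Jt
    simp only [e1, Complex.ofReal_zero]
  rw [e2, QY_eq, e1, cz_eq, e0]

theorem TDat.smoS (S : TDat X Λ u a ν b E D Bad SS) (hφ : φ ∈ SS) {y : Vd (k + 1)} (hy : y ∈ Tb b E) (hD : y ∉ D) : Smo X Λ u a ν y (sl φ a ν y) 0 0 := by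
  refine (S.sdat hφ hy).smo 0 0 ?_
  show ¬ (y + ((0 : ℝ) : ℂ) • ν + (0 : ℂ) • a ∈ D)
  have e0 : y + ((0 : ℝ) : ℂ) • ν + (0 : ℂ) • a = y := by simp
  rwa [e0]

end Pool.Agent.G4.C
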