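import Pool.Agent.H94.G4T.G4.C.PoC
import Pool.Agent.H94.G4T.M113
import Pool.Agent.H94.G4T.M132
import Pool.Agent.H94.G4T.M32
import Pool.Agent.H94.G4T.M73

/-!
# G4 C PZ: the jet form vanishes on the sheets

`φ ∈ SS`, `y ∈ T`, `F ∈ Gc X Λ u a y` the lift of `φ (y + z a)` (`S.line`), `f z = pT P a φ (y + z a) (F z) = pval P a y (sl φ a ν y) 0 z (F z)` (`pval_pT`), analytic where `y + z a ∉ D` (`pval_hol`, `(S.sdat hφ hy).smo`), locally bounded
where `y + z a ∉ Bad` (`pT_loc`); `removable_discrete` (as in `G3/C/PZ`): `g`, holomorphic on `U = {z | y + z a ∉ Bad}`, `g = f` off `D`.  `E₀ = {z | y + z a ∈ Bad}`: closed, finite on discs (`S.hits`), `ncard` bounds from `S.few`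
(base point `y + z a`, `Finset` of the translates).  `Mh` = bound for `(E₀ ∩ closedBall z 2).ncard`.
Constants: `ρ = 1/2`; `S.circ ha (η := 1/2)` gives `δ₁` (`‖a‖ = 1`: points `w` with `y + w a ∈ Gd D δ₁` have distance `≥ δ₁` from `E₀`); `δ = min (1/4) (δ₁ / 2)`; `r₀ = δ ^ (Mh + 1)`; `S.circ ha (η := r₀ / 4)` gives `δ₀`; `pT_bound` (`η := δ₀`,
`Gd D δ₀ ⊆ Gd Bad δ₀`) gives `C₀`; `S.gr (r₀ / 4)` gives `c`, `q = exp (-c)`; `pole` gives `M'`; `C₁ = max C₀ ((4 / r₀) ^ (M' * Mh))`.  Apply `U.ustar` to `κ z = if z ∈ E₀ then 0 else ‖g z‖ * ‖F z‖`: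
* `hb`: circle of radius `< r₀ / 4` around `z` over `Gd D δ₀`, no point of `E₀` inside: maximum principle for `g • F`, `BdAt` on the circle.
* `hs`: `h = g * g₁` (`g₁` the function of `hs`) holomorphic on a neighbourhood of `closedBall z (r₀ / 4)`; if `h z ≠ 0`: `log ‖h z‖ ≤ circleAverage (log ‖h‖) z (r₀ / 4)` (see `G3/C/LemmaU`, `ZCount`, `hp_zero`), and
  `log ‖h‖ ≤ log S - log ‖F‖` on the circle, so `log ‖h z‖ ≤ log S - log ‖F z‖ - c`.
* `hm`: `H w = (∏ e ∈ E₀ ∩ ball z 1, (w - e) ^ M') • (g w * g₁ w) • F w` is bounded near the `e` (`pole`), so it extends holomorphically to `ball z 1` (removable singularities); circle of radius `r < 1/2` around `z` over `Gd D δ₁`, maximum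
  principle; the factors are `≥ r₀ / 2` at `z`, `≤ 2` on the circle, at most `Mh` of them.
So `κ = 0` at distance `≥ r₀` from `E₀`, in particular near the points of the circles over `Gd D δ₁`; `U` is the complement of a countable closed set, so connected: `g = 0`, `f = 0` off `D`; `z = 0` and `pval_smul` (`x = α • F 0`).
-/

set_option autoImplicit false

open Topology Filter Metric

namespace Pool.Agent.G4.C

open Pool.Agent.H36.BP (EN fs wd)
open Pool.Agent.H14.PP (IsCone)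
open Pool.Agent.H62.EF (MN pr)
open Pool.Agent.AD (Vd Chart Charts)
open Pool.Agent.TG (TMap Lat Str ms tl Gd)
open Pool.Agent.G3.A (Tb Hc NL)
open Pool.Agent.G3.C

variable {N k : ℕ} {X : Set (EN N)} {Λ : AddSubgroup (Vd (k + 1))} {u : EN N → Vd (k + 1)} {ν a b : Vd (k + 1)} {m : ℕ} {E : Submodule ℝ (Vd (k + 1))}
  {D Bad : Set (Vd (k + 1))} {SS : Set (Vd (k + 1) → MN N)} {φ : Vd (k + 1) → MN N}

/-- the maximum principle on a disc -/
private theorem pz_max {F : ℂ → EN N} (hF : Differentiable ℂ F) {g : ℂ → ℂ} {z : ℂ} {r C : ℝ} (hr : 0 < r) (hg : ∀ w ∈ closedBall z r, DifferentiableAt ℂ g w)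
    (hC : ∀ w, dist w z = r → ‖g w‖ * ‖F w‖ ≤ C) : ‖g z‖ * ‖F z‖ ≤ C := by
  have hd1 : DiffContOnCl ℂ (fun w => g w • F w) (ball z r) := by
    refine ⟨fun w hw => ((hg w (ball_subset_closedBall hw)).smul (hF w)).differentiableWithinAt, ?_⟩
    rw [closure_ball _ hr.ne']
    exact fun w hw => ((hg w hw).smul (hF w)).continuousAt.continuousWithinAt
  have hfr : ∀ w ∈ frontier (ball z r), ‖g w • F w‖ ≤ C := by
    intro w hw
    rw [frontier_ball _ hr.ne', mem_sphere] at hw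
    rw [norm_smul]
    exact hC w hw
  have h5 := Complex.norm_le_of_forall_mem_frontier_norm_le isBounded_ball hd1 hfr (z := z) (by
    rw [closure_ball _ hr.ne']
    exact mem_closedBall_self hr.le)
  rwa [norm_smul] at h5

/-- the strict inequality -/
private theorem pz_hs {F : ℂ → EN N} (hF : Differentiable ℂ F) (hF0 : ∀ z, F z ≠ 0) {h : ℂ → ℂ} {z : ℂ} {r c S : ℝ} (hr : 0 < r) (hh : AnalyticOnNhd ℂ h (closedBall z r))
    (hgr : Real.log ‖F z‖ + c ≤ Real.circleAverage (fun w => Real.log ‖F w‖) z r) (hS : ∀ w, dist w z = r → ‖h w‖ * ‖F w‖ ≤ S) :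
    ‖h z‖ * ‖F z‖ ≤ Real.exp (-c) * S := by
  have hS0 : 0 ≤ S := by
    have h1 := hS (z + (r : ℂ)) (by rw [dist_eq_norm, add_sub_cancel_left, Complex.norm_real, Real.norm_eq_abs, abs_of_pos hr])
    exact le_trans (by positivity) h1
  have hFp : ∀ w, 0 < ‖F w‖ := fun w => norm_pos_iff.2 (hF0 w)
  by_cases h0 : h z = 0
  · rw [h0, norm_zero, zero_mul]
    positivity
  have hcont : Continuous fun w => Real.log ‖F w‖ := hF.continuous.norm.log fun w => (hFp w).ne'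
  have key : ∀ ε : ℝ, 0 < ε → ‖h z‖ * ‖F z‖ ≤ Real.exp (-c) * (S + ε) := by
    intro ε hε
    have hp : 0 < S + ε := by linarith
    have h1 := log_norm_le_avg (P := h) (c := z) (r := r) hr hh h0 (g := fun w => Real.log (S + ε) - Real.log ‖F w‖) (continuous_const.sub hcont).continuousOn (by
      intro w hw
      rw [Real.exp_sub, Real.exp_log hp, Real.exp_log (hFp w), le_div_iff₀ (hFp w)]
      have := hS w (mem_sphere.1 hw)
      linarith)
    have h2 : Real.circleAverage (fun w => Real.log (S + ε) - Real.log ‖F w‖) z r = Real.log (S + ε) - Real.circleAverage (fun w => Real.log ‖F w‖) z r := by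
      have h3 := Real.circleAverage_fun_sub (circleIntegrable_const (Real.log (S + ε)) z r) (hcont.continuousOn.circleIntegrable hr.le (f := fun w => Real.log ‖F w‖))
      rw [h3, Real.circleAverage_const]
    rw [h2] at h1
    have h3 : Real.log (‖h z‖ * ‖F z‖) ≤ Real.log (Real.exp (-c) * (S + ε)) := by
      rw [Real.log_mul (norm_ne_zero_iff.2 h0) (hFp z).ne', Real.log_mul (Real.exp_ne_zero _) hp.ne', Real.log_exp]
      linarith
    exact (Real.log_le_log_iff (mul_pos (norm_pos_iff.2 h0) (hFp z)) (mul_pos (Real.exp_pos _) hp)).1 h3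
  refine le_of_forall_pos_le_add fun ε hε => ?_
  have h1 := key (ε / Real.exp (-c)) (div_pos hε (Real.exp_pos _))
  rw [mul_add, mul_div_cancel₀ _ (Real.exp_ne_zero _)] at h1
  exact h1

/-- the inequality near the exceptional points -/
private theorem pz_hm {E : Set ℂ} (hE : IsClosed E) (hiso : ∀ w : ℂ, ∀ᶠ z in 𝓝[≠] w, z ∉ E) (hfin : ∀ (z : ℂ) (R : ℝ), (E ∩ closedBall z R).Finite) {M : ℕ}
    (hloc : ∀ z : ℂ, (E ∩ closedBall z 2).ncard ≤ M) {F : ℂ → EN N} (hF : Differentiable ℂ F) {g g₁ : ℂ → ℂ} (hg : DifferentiableOn ℂ g Eᶜ) {z : ℂ} {r₀ r S : ℝ}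
    (hr₀ : 0 < r₀) (hr₁ : r₀ ≤ 4) (hr : 0 < r) (hr' : r < 1 / 2) (hz : ∀ e ∈ E, r₀ / 2 ≤ dist z e) (hg₁ : DifferentiableOn ℂ g₁ (ball z 1))
    (hcirc : ∀ w, dist w z = r → w ∉ E ∧ ‖g w‖ * ‖F w‖ * ‖g₁ w‖ ≤ S) {M' : ℕ} (hp : ∀ e ∈ E, ∃ C : ℝ, ∀ᶠ z in 𝓝[≠] e, ‖g z‖ * ‖z - e‖ ^ M' ≤ C) :
    ‖g z‖ * ‖F z‖ * ‖g₁ z‖ ≤ (4 / r₀) ^ (M' * M) * S := by
  classical
  have hS0 : 0 ≤ S := by
    have h1 := (hcirc (z + (r : ℂ)) (by rw [dist_eq_norm, add_sub_cancel_left, Complex.norm_real, Real.norm_eq_abs, abs_of_pos hr])).2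
    exact le_trans (by positivity) h1
  have hgan : ∀ w ∉ E, DifferentiableAt ℂ g w := fun w hw => (hg w hw).differentiableAt (hE.isOpen_compl.mem_nhds hw)
  obtain ⟨A, hA⟩ : ∃ A : Finset ℂ, ∀ e, e ∈ A ↔ e ∈ E ∧ dist e z ≤ 1 := by
    refine ⟨(hfin z 1).toFinset, fun e => ?_⟩
    rw [Set.Finite.mem_toFinset, Set.mem_inter_iff, mem_closedBall]
  have hcard : A.card ≤ M := by
    have h1 : (A : Set ℂ) ⊆ E ∩ closedBall z 2 := by
      intro e he
      rw [Finset.mem_coe, hA] at he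
      exact ⟨he.1, by rw [mem_closedBall]; linarith only [hr, hr', he, he.2]⟩
    have h2 := Set.ncard_le_ncard h1 (hfin z 2)
    rw [Set.ncard_coe_finset] at h2
    exact h2.trans (hloc z)
  obtain ⟨G, hGd⟩ : ∃ G : ℂ → ℂ, G = fun w => (∏ e ∈ A, (w - e) ^ M') * g w := ⟨_, rfl⟩
  have hGv : ∀ w, G w = (∏ e ∈ A, (w - e) ^ M') * g w := fun w => by rw [hGd]
  have hprd : ∀ B : Finset ℂ, Differentiable ℂ fun w : ℂ => ∏ e ∈ B, (w - e) ^ M' := fun B => by fun_prop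
  have hGdiff : ∀ w ∉ E, DifferentiableAt ℂ G w := fun w hw => by
    rw [hGd]
    exact (hprd A w).mul (hgan w hw)
  have hGan : ∀ w ∉ E, AnalyticAt ℂ G w := fun w hw => by
    have h1 : DifferentiableOn ℂ G Eᶜ := fun w' hw' => (hGdiff w' hw').differentiableWithinAt
    exact h1.analyticAt (hE.isOpen_compl.mem_nhds hw)
  obtain ⟨G', hG'd, hG'v⟩ := removable_discrete (U := ball z 1) (S := E) isOpen_ball (fun w _ => hiso w) (f := G) (fun w _ hw => hGan w hw) (by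
    intro w hw
    by_cases hwE : w ∈ E
    · obtain ⟨C, hC⟩ := hp w hwE
      have hwA : w ∈ A := (hA w).2 ⟨hwE, (mem_ball.1 hw).le⟩
      obtain ⟨B, hB⟩ := exists_gt ‖∏ e ∈ A.erase w, (w - e) ^ M'‖
      have h1 : ∀ᶠ z' in 𝓝 w, ‖∏ e ∈ A.erase w, (z' - e) ^ M'‖ < B := ((hprd (A.erase w)).continuous.norm.continuousAt (x := w)).eventually_lt_const hB
      refine ⟨B * C, ?_⟩
      filter_upwards [hC, h1.filter_mono nhdsWithin_le_nhds] with z' h2 h3
      rw [hGv, ← Finset.mul_prod_erase A _ hwA, norm_mul, norm_mul, norm_pow]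
      have h4 : 0 ≤ ‖g z'‖ * ‖z' - w‖ ^ M' := by positivity
      calc ‖z' - w‖ ^ M' * ‖∏ e ∈ A.erase w, (z' - e) ^ M'‖ * ‖g z'‖ = ‖∏ e ∈ A.erase w, (z' - e) ^ M'‖ * (‖g z'‖ * ‖z' - w‖ ^ M') := by ring
        _ ≤ B * C := mul_le_mul h3.le h2 h4 ((norm_nonneg _).trans h3.le)
    · obtain ⟨B, hB⟩ := exists_gt ‖G w‖
      refine ⟨B, ?_⟩
      exact (((hGdiff w hwE).continuousAt.norm.eventually_lt_const hB).filter_mono nhdsWithin_le_nhds).mono fun z' h => h.le)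
  have hsub : closedBall z r ⊆ ball z 1 := closedBall_subset_ball (by linarith only [hr, hr'])
  have h1 := pz_max hF (g := fun w => G' w * g₁ w) (z := z) (r := r) (C := (2 ^ M') ^ A.card * S) hr (fun w hw =>
    (hG'd.differentiableAt (isOpen_ball.mem_nhds (hsub hw))).mul (hg₁.differentiableAt (isOpen_ball.mem_nhds (hsub hw)))) (by
      intro w hw
      obtain ⟨h2, h3⟩ := hcirc w hw
      have h4 : w ∈ ball z 1 := by
        rw [mem_ball]
        linarith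
      rw [hG'v w h4 h2, hGv, norm_mul, norm_mul, norm_prod]
      have h5 : ∏ e ∈ A, ‖(w - e) ^ M'‖ ≤ (2 ^ M') ^ A.card := by
        rw [← Finset.prod_const]
        refine Finset.prod_le_prod (fun e _ => norm_nonneg _) fun e he => ?_
        rw [norm_pow]
        refine pow_le_pow_left₀ (norm_nonneg _) ?_ _
        rw [← dist_eq_norm]
        have h6 := ((hA e).1 he).2
        have h7 := dist_triangle w z e
        rw [dist_comm z e] at h7
        linarith only [hr, hr', hw, h6, h7]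
      calc (∏ e ∈ A, ‖(w - e) ^ M'‖) * ‖g w‖ * ‖g₁ w‖ * ‖F w‖ = (∏ e ∈ A, ‖(w - e) ^ M'‖) * (‖g w‖ * ‖F w‖ * ‖g₁ w‖) := by ring
        _ ≤ (2 ^ M') ^ A.card * S := mul_le_mul h5 h3 (by positivity) (by positivity))
  have hzE : z ∉ E := fun h => by
    have h2 := hz z h
    rw [dist_self] at h2
    linarith only [hr₀, h2]
  rw [hG'v z (mem_ball_self one_pos) hzE, hGv, norm_mul, norm_mul, norm_prod] at h1
  have h5 : ((r₀ / 2) ^ M') ^ A.card ≤ ∏ e ∈ A, ‖(z - e) ^ M'‖ := by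
    rw [← Finset.prod_const]
    refine Finset.prod_le_prod (fun e _ => by positivity) fun e he => ?_
    rw [norm_pow]
    refine pow_le_pow_left₀ (by positivity) ?_ _
    rw [← dist_eq_norm]
    exact hz e ((hA e).1 he).1
  obtain ⟨κ, hκ⟩ : ∃ κ, κ = ‖g z‖ * ‖F z‖ * ‖g₁ z‖ := ⟨_, rfl⟩
  have hκ0 : 0 ≤ κ := by
    rw [hκ]
    positivity
  have h6 : ((r₀ / 2) ^ M') ^ A.card * κ ≤ (2 ^ M') ^ A.card * S := by
    refine (mul_le_mul_of_nonneg_right h5 hκ0).trans ?_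
    rw [hκ]
    refine le_trans (le_of_eq ?_) h1
    ring
  rw [← hκ]
  have h7 : (2 : ℝ) = (4 / r₀) * (r₀ / 2) := by
    field_simp
    norm_num
  have h8 : ((2 : ℝ) ^ M') ^ A.card = ((4 / r₀) ^ M') ^ A.card * ((r₀ / 2) ^ M') ^ A.card := by
    rw [← mul_pow, ← mul_pow, ← h7]
  rw [h8] at h6
  have h9 : 0 < ((r₀ / 2) ^ M') ^ A.card := by positivity
  have h10 : κ ≤ ((4 / r₀) ^ M') ^ A.card * S := by
    refine le_of_mul_le_mul_left ?_ h9
    linarith only [h6]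
  refine h10.trans (mul_le_mul_of_nonneg_right ?_ hS0)
  rw [← pow_mul]
  refine pow_le_pow_right₀ ?_ (Nat.mul_le_mul_left _ hcard)
  rw [le_div_iff₀ hr₀]
  linarith only [hr₁]

/-- the plane part -/
private theorem pz_plane {E : Set ℂ} (hE : IsClosed E) (hiso : ∀ w : ℂ, ∀ᶠ z in 𝓝[≠] w, z ∉ E) (hfin : ∀ (z : ℂ) (R : ℝ), (E ∩ closedBall z R).Finite)
    (hfew : ∀ ε : ℝ, 0 < ε → ∃ C : ℝ, ∀ (z : ℂ) (R : ℝ), 0 ≤ R → ((E ∩ closedBall z R).ncard : ℝ) ≤ ε * R ^ 2 + C)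
    {F : ℂ → EN N} (hF : Differentiable ℂ F) (hF0 : ∀ z, F z ≠ 0)
    (hgr : ∀ R₀ : ℝ, 0 < R₀ → ∃ c : ℝ, 0 < c ∧ ∀ z, Real.log ‖F z‖ + c ≤ Real.circleAverage (fun w => Real.log ‖F w‖) z R₀)
    {g : ℂ → ℂ} (hg : DifferentiableOn ℂ g Eᶜ) {δ₁ : ℝ} (hδ₁ : 0 < δ₁) (hc : ∀ z : ℂ, ∃ r : ℝ, 0 < r ∧ r < 1 / 2 ∧ ∀ w, dist w z = r → ∀ e ∈ E, δ₁ ≤ dist w e)
    (hC : ∀ η : ℝ, 0 < η → ∃ C : ℝ, ∀ z : ℂ, ∃ r : ℝ, 0 < r ∧ r < η ∧ ∀ w, dist w z = r → w ∉ E → ‖g w‖ * ‖F w‖ ≤ C) {M' : ℕ}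
    (hp : ∀ e ∈ E, ∃ C : ℝ, ∀ᶠ z in 𝓝[≠] e, ‖g z‖ * ‖z - e‖ ^ M' ≤ C) : ∀ z ∉ E, g z = 0 := by
  classical
  have hgan : ∀ w ∉ E, DifferentiableAt ℂ g w := fun w hw => (hg w hw).differentiableAt (hE.isOpen_compl.mem_nhds hw)
  -- the number of the exceptional points in discs
  obtain ⟨M, hloc⟩ : ∃ M : ℕ, ∀ z : ℂ, (E ∩ closedBall z 2).ncard ≤ M := by
    obtain ⟨C, hC1⟩ := hfew 1 one_pos
    refine ⟨⌈1 * (2 : ℝ) ^ 2 + C⌉₊, fun z => ?_⟩
    have h1 := hC1 z 2 (by norm_num)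
    exact_mod_cast h1.trans (Nat.le_ceil _)
  -- the constants
  obtain ⟨δ, hδd⟩ : ∃ δ, δ = min (1 / 4) (δ₁ / 2) := ⟨_, rfl⟩
  have hδ : 0 < δ := by
    rw [hδd]
    exact lt_min (by norm_num) (by linarith only [hδ₁])
  have hδ4 : δ ≤ 1 / 4 := by
    rw [hδd]
    exact min_le_left _ _
  have hδ1 : 2 * δ ≤ δ₁ := by
    have : δ ≤ δ₁ / 2 := by
      rw [hδd]
      exact min_le_right _ _
    linarith only [this]
  obtain ⟨r₀, hr₀d⟩ : ∃ r₀, r₀ = δ ^ (M + 1) := ⟨_, rfl⟩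
  have hr₀ : 0 < r₀ := by
    rw [hr₀d]
    positivity
  have hr₀δ : r₀ ≤ δ := by
    rw [hr₀d, pow_succ]
    have : δ ^ M ≤ 1 := pow_le_one₀ hδ.le (by linarith only [hδ, hδ4])
    nlinarith only [hδ, this]
  have hr : r₀ / (2 * δ) * (1 / δ) ^ M ≤ 1 / 2 := by
    have h1 : δ ^ M * (1 / δ) ^ M = 1 := by
      rw [← mul_pow, mul_one_div_cancel hδ.ne', one_pow]
    refine le_of_eq ?_
    rw [hr₀d, pow_succ]
    calc δ ^ M * δ / (2 * δ) * (1 / δ) ^ M = (δ ^ M * (1 / δ) ^ M) * (δ / (2 * δ)) := by ring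
      _ = 1 / 2 := by
        rw [h1]
        field_simp
  obtain ⟨C₀, hC₀⟩ := hC (r₀ / 4) (by positivity)
  obtain ⟨c, hc0, hgr0⟩ := hgr (r₀ / 4) (by positivity)
  have hq : Real.exp (-c) < 1 := by
    rw [Real.exp_lt_one_iff]
    linarith only [hc0]
  obtain ⟨C₁, hC₁d⟩ : ∃ C₁, C₁ = max C₀ ((4 / r₀) ^ (M' * M)) := ⟨_, rfl⟩
  obtain ⟨κ, hκd⟩ : ∃ κ : ℂ → ℝ, κ = fun z => if z ∈ E then 0 else ‖g z‖ * ‖F z‖ := ⟨_, rfl⟩
  have hκv : ∀ z ∉ E, κ z = ‖g z‖ * ‖F z‖ := fun z hz => by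
    rw [hκd]
    simp only
    rw [if_neg hz]
  have hκ0 : ∀ z, 0 ≤ κ z := fun z => by
    rw [hκd]
    simp only
    split_ifs
    · exact le_rfl
    · positivity
  have hout : ∀ {z : ℂ} {t : ℝ}, 0 < t → (∀ e ∈ E, t ≤ dist z e) → z ∉ E := fun ht h hz => by
    have h1 := h _ hz
    rw [dist_self] at h1
    linarith only [ht, h1]
  have hS0 : ∀ {z : ℂ} {t S : ℝ} {f : ℂ → ℝ}, 0 < t → (∀ w, 0 ≤ f w) → (∀ w, dist w z = t → f w ≤ S) → 0 ≤ S := fun {z} {t} {S} {f} ht hf h => by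
    have h1 := h (z + (t : ℂ)) (by rw [dist_eq_norm, add_sub_cancel_left, Complex.norm_real, Real.norm_eq_abs, abs_of_pos ht])
    exact (hf _).trans h1
  have hall := Pool.Agent.G4.U.ustar hE hfin hloc (fun ε hε => by
      obtain ⟨C, hC⟩ := hfew ε hε
      exact ⟨C, fun z R hR => hC z R (by linarith)⟩) hδ hδ4 (ρ := 1 / 2) (by norm_num) le_rfl hr₀ hr hq (C₁ := C₁) hκ0
    (by
      intro z hz
      obtain ⟨r, hr1, hr2, hr3⟩ := hC₀ z
      have hball : ∀ w ∈ closedBall z r, w ∉ E := by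
        intro w hw hwE
        have h1 := hz w hwE
        rw [mem_closedBall, dist_comm] at hw
        linarith only [hr1, hr2, hw, h1]
      rw [hκv z (hball z (mem_closedBall_self hr1.le)), hC₁d]
      refine le_trans ?_ (le_max_left _ _)
      exact pz_max hF hr1 (fun w hw => hgan w (hball w hw)) fun w hw => hr3 w hw (hball w (by rw [mem_closedBall]; exact hw.le)))
    (by
      intro z hz g₁ hg₁ hg₁0 S hS
      have hball : ∀ w ∈ ball z (r₀ / 2), w ∉ E := by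
        intro w hw hwE
        have h1 := hz w hwE
        rw [mem_ball, dist_comm] at hw
        linarith
      have hsub : closedBall z (r₀ / 4) ⊆ ball z (r₀ / 2) := closedBall_subset_ball (by linarith)
      have hh : DifferentiableOn ℂ (fun w => g w * g₁ w) (ball z (r₀ / 2)) := fun w hw =>
        ((hgan w (hball w hw)).mul (hg₁.differentiableAt (isOpen_ball.mem_nhds hw))).differentiableWithinAt
      have h1 := pz_hs hF hF0 (h := fun w => g w * g₁ w) (z := z) (r := r₀ / 4) (c := c) (S := S) (by positivity)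
        (fun w hw => hh.analyticAt (isOpen_ball.mem_nhds (hsub hw))) (hgr0 z) (by
          intro w hw
          have h2 := hS w hw
          rw [hκv w (hball w (hsub (by rw [mem_closedBall]; exact hw.le)))] at h2
          rw [norm_mul]
          linarith only [h2])
      rw [hκv z (hball z (mem_ball_self (by positivity)))]
      rw [norm_mul] at h1
      linarith only [h1])
    (by
      intro z hz _ g₁ hg₁ hg₁0 S hS
      obtain ⟨r, hr1, hr2, hr3⟩ := hc z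
      have hcirc : ∀ w, dist w z = r → w ∉ E ∧ ‖g w‖ * ‖F w‖ * ‖g₁ w‖ ≤ S := by
        intro w hw
        have h1 : w ∉ E := hout hδ₁ (hr3 w hw)
        refine ⟨h1, ?_⟩
        rw [← hκv w h1]
        exact hS w (by rw [hw]; exact hr2.le) fun e he => hδ1.trans (hr3 w hw e he)
      have hSn : 0 ≤ S := hS0 (z := z) hr1 (f := fun w => ‖g w‖ * ‖F w‖ * ‖g₁ w‖) (fun w => by positivity) fun w hw => (hcirc w hw).2
      rw [hκv z (hout (show (0 : ℝ) < r₀ / 2 by positivity) hz), hC₁d]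
      refine (pz_hm hE hiso hfin hloc hF hg hr₀ (by linarith only [hδ, hδ4, hr₀δ]) hr1 hr2 hz hg₁ hcirc hp).trans ?_
      exact mul_le_mul_of_nonneg_right (le_max_right _ _) hSn)
  -- a disc without exceptional points
  obtain ⟨r, hr1, -, hr3⟩ := hc 0
  obtain ⟨z₁, hz₁⟩ : ∃ z₁ : ℂ, z₁ = (r : ℂ) := ⟨_, rfl⟩
  have hz₁d : dist z₁ 0 = r := by
    rw [hz₁, dist_zero_right, Complex.norm_real, Real.norm_eq_abs, abs_of_pos hr1]
  have hnear : ∀ w ∈ ball z₁ δ, ∀ e ∈ E, δ ≤ dist w e := by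
    intro w hw e he
    have h1 := hr3 z₁ hz₁d e he
    have h2 := dist_triangle z₁ w e
    rw [mem_ball, dist_comm] at hw
    linarith
  have hev : g =ᶠ[𝓝 z₁] 0 := by
    filter_upwards [ball_mem_nhds z₁ hδ] with w hw
    have h1 := hall w fun e he => hr₀δ.trans (hnear w hw e he)
    rw [hκv w (hout hδ (hnear w hw))] at h1
    rcases mul_eq_zero.1 h1 with h2 | h2
    · exact norm_eq_zero.1 h2
    · exact absurd (norm_eq_zero.1 h2) (hF0 w)
  have hcount : E.Countable := by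
    have h1 : E = ⋃ n : ℕ, E ∩ closedBall 0 n := by
      ext e
      constructor
      · intro he
        obtain ⟨n, hn⟩ := exists_nat_ge (dist e 0)
        exact Set.mem_iUnion.2 ⟨n, he, hn⟩
      · intro he
        obtain ⟨n, hn⟩ := Set.mem_iUnion.1 he
        exact hn.1
    rw [h1]
    exact Set.countable_iUnion fun n => (hfin 0 n).countable
  have hconn : IsPreconnected Eᶜ := by
    refine (Set.Countable.isConnected_compl_of_one_lt_rank ?_ hcount).isPreconnected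
    simp
  have hz₁E : z₁ ∈ Eᶜ := hout hδ (hnear z₁ (mem_ball_self hδ))
  have hall2 := AnalyticOnNhd.eqOn_zero_of_preconnected_of_eventuallyEq_zero (𝕜 := ℂ) (f := g) (U := Eᶜ) (fun w hw => hg.analyticAt (hE.isOpen_compl.mem_nhds hw))
    hconn hz₁E hev
  exact fun z hz => hall2 hz

/-- few bad points of the line in discs with arbitrary centres -/
private theorem pz_few (S : TDat X Λ u a ν b E D Bad SS) (y : Vd (k + 1)) (ε : ℝ) (hε : 0 < ε) :
    ∃ C : ℝ, ∀ (z : ℂ) (R : ℝ), 0 ≤ R → (({z : ℂ | y + z • a ∈ Bad} ∩ closedBall z R).ncard : ℝ) ≤ ε * R ^ 2 + C := by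
  classical
  obtain ⟨C, hC⟩ := S.few ε hε
  refine ⟨C, fun z R hR => ?_⟩
  have hfin : ({z : ℂ | y + z • a ∈ Bad} ∩ closedBall z R).Finite := (S.hits y z R).subset fun w hw => ⟨S.bad_sub hw.1, hw.2⟩
  have h1 := hC (y + z • a) R hR (hfin.toFinset.image fun e => e - z) (by
    intro w hw
    obtain ⟨e, he, rfl⟩ := Finset.mem_image.1 hw
    rw [Set.Finite.mem_toFinset] at he
    refine ⟨?_, ?_⟩
    · rw [← dist_eq_norm]
      exact mem_closedBall.1 he.2
    · have e1 : y + z • a + (e - z) • a = y + e • a := by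
        rw [sub_smul]
        abel
      rw [e1]
      exact he.1)
  rw [Finset.card_image_of_injective _ (fun e e' h => by simpa using h)] at h1
  rwa [Set.ncard_eq_toFinset_card _ hfin]

theorem pT_zero (S : TDat X Λ u a ν b E D Bad SS) (ha : ‖a‖ = 1) {P : JForm X Λ u ν m} (hA : AlgP D P) (hφ : φ ∈ SS) {y : Vd (k + 1)} (hy : y ∈ Tb b E) (hD : y ∉ D) {x : EN N} (hx : x ≠ 0)
    (hφx : φ y = pr x) : pT P a φ y x = 0 := by
  obtain ⟨F, hF, hφF⟩ := S.line φ hφ y hy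
  have hF0 : ∀ z, F z ≠ 0 := fun z h0 => S.cone.zero_notMem (h0 ▸ hF.2.1 z)
  have e0 : ∀ z : ℂ, y + ((0 : ℝ) : ℂ) • ν + z • a = y + z • a := fun z => by simp
  have hsl : ∀ z, sl φ a ν y 0 z = pr (F z) := by
    intro z
    rw [← hφF z, ← e0 z]
    rfl
  have hT : ∀ z : ℂ, y + z • a ∈ Tb b E := fun z => S.add_mem hy (S.a_mem z)
  have hsmo : ∀ z : ℂ, y + z • a ∉ D → Smo X Λ u a ν y (sl φ a ν y) 0 z := by
    intro z hz
    refine (S.sdat hφ hy).smo 0 z ?_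
    show ¬ (y + ((0 : ℝ) : ℂ) • ν + z • a ∈ D)
    rwa [e0]
  obtain ⟨f, hfd⟩ : ∃ f : ℂ → ℂ, f = fun z => pval P a y (sl φ a ν y) 0 z (F z) := ⟨_, rfl⟩
  have hfv : ∀ z, y + z • a ∉ D → f z = pT P a φ (y + z • a) (F z) := by
    intro z hz
    have h1 := pval_pT S.cone P (s := 0) (z := z) (hsmo z hz) (by rw [e0]; exact S.smoS hφ (hT z) hz) (hF0 z) (by rw [e0]; exact hφF z)
    rw [e0] at h1
    rw [hfd]
    exact h1
  have hfan : ∀ z, y + z • a ∉ D → AnalyticAt ℂ f z := by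
    intro z hz
    rw [hfd]
    exact pval_hol S.cone hF.1 hF0 hsl (hsmo z hz) P
  have hcl : Continuous fun z : ℂ => y + z • a := by fun_prop
  have hUo : IsOpen {z : ℂ | y + z • a ∉ Bad} := S.bad_closed.isOpen_compl.preimage hcl
  have hlb : ∀ z ∈ {z : ℂ | y + z • a ∉ Bad}, ∃ C : ℝ, ∀ᶠ z' in 𝓝[≠] z, ‖f z'‖ ≤ C := by
    intro z hz
    obtain ⟨C, hC⟩ := pT_loc S P hφ (hT z) hz
    have h1 : Tendsto (fun z' : ℂ => y + z' • a) (𝓝 z) (𝓝[Tb b E] (y + z • a)) :=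
      tendsto_nhdsWithin_iff.2 ⟨hcl.tendsto z, Eventually.of_forall hT⟩
    have h2 : ∀ᶠ z' in 𝓝 z, ‖F z‖ / 2 < ‖F z'‖ := by
      have h3 : ‖F z‖ / 2 < ‖F z‖ := by
        have := norm_pos_iff.2 (hF0 z)
        linarith only [this]
      exact hF.1.continuous.norm.continuousAt.eventually_const_lt h3
    refine ⟨C / (‖F z‖ / 2), ?_⟩
    filter_upwards [(h1.eventually hC).filter_mono nhdsWithin_le_nhds, h2.filter_mono nhdsWithin_le_nhds, S.iso y z] with z' a1 a2 a3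
    have h4 := a1 a3 (F z') (hF0 z') (hφF z')
    rw [← hfv z' a3] at h4
    have h5 : 0 < ‖F z‖ / 2 := by
      have := norm_pos_iff.2 (hF0 z)
      linarith
    rw [le_div_iff₀ h5]
    exact (mul_le_mul_of_nonneg_left a2.le (norm_nonneg _)).trans h4
  obtain ⟨g, hgd, hgf⟩ := removable_discrete (S := {z : ℂ | y + z • a ∈ D}) hUo (fun z _ => S.iso y z) (fun z _ hz => hfan z hz) hlb
  have hgv : ∀ z, y + z • a ∉ D → g z = f z := fun z hz => hgf z (fun h' => hz (S.bad_sub h')) hz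
  obtain ⟨δ₁, hδ₁, hcirc⟩ := S.circ ha (η := 1 / 2) (by norm_num)
  obtain ⟨M', hM'⟩ := pole S ha hA
  have hcen : ∀ z w : ℂ, y + z • a + (w - z) • a = y + w • a := fun z w => by
    rw [sub_smul]
    abel
  have hg0 : g 0 = 0 := by
    refine pz_plane (E := {z : ℂ | y + z • a ∈ Bad}) (S.bad_closed.preimage hcl) (fun w => (S.iso y w).mono fun z h1 h2 => h1 (S.bad_sub h2))
      (fun z R => (S.hits y z R).subset fun w hw => ⟨S.bad_sub hw.1, hw.2⟩) (pz_few S y) hF.1 hF0 (fun R₀ hR₀ => ?_) (g := g) hgd hδ₁ (fun z => ?_) (fun η hη => ?_)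
      (M' := M') (fun e _ => ?_) 0 (fun h0 => ?_)
    · obtain ⟨c, hc, h⟩ := S.gr R₀ hR₀
      exact ⟨c, hc, fun z => h y F hF z⟩
    · obtain ⟨r, hr, hr', h⟩ := hcirc (y + z • a)
      refine ⟨r, hr, hr', fun w hw e he => ?_⟩
      have h1 := h (w - z) (by rw [← dist_eq_norm]; exact hw) (y + e • a) (S.bad_sub he)
      rw [hcen] at h1
      have h2 : y + w • a - (y + e • a) = (w - e) • a := by
        rw [sub_smul]
        abel
      rw [h2, norm_smul, ha, mul_one, ← dist_eq_norm] at h1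
      exact h1
    · obtain ⟨δ₀, hδ₀, h⟩ := S.circ ha hη
      obtain ⟨C, hC⟩ := pT_bound S P hδ₀
      refine ⟨C, fun z => ?_⟩
      obtain ⟨r, hr, hr', h⟩ := h (y + z • a)
      refine ⟨r, hr, hr', fun w hw _ => ?_⟩
      have h1 := h (w - z) (by rw [← dist_eq_norm]; exact hw)
      rw [hcen] at h1
      have h2 : y + w • a ∉ D := Pool.Agent.TG.gd_notMem hδ₀ h1
      rw [hgv w h2, hfv w h2]
      exact hC φ hφ _ (hT w) (fun β hβ => h1 β (S.bad_sub hβ)) h2 (F w) (hF0 w) (hφF w)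
    · obtain ⟨C, hC⟩ := hM' φ hφ y hy F hF hφF e
      refine ⟨C, ?_⟩
      filter_upwards [hC, S.iso y e] with z h1 h2
      rw [hgv z h2, hfv z h2]
      exact h1
    · apply hD
      have h1 := S.bad_sub h0
      rwa [zero_smul, add_zero] at h1
  have hD0 : y + (0 : ℂ) • a ∉ D := by
    rwa [zero_smul, add_zero]
  have hf0 : pval P a y (sl φ a ν y) 0 0 (F 0) = 0 := by
    have h1 := hgv 0 hD0
    rw [hg0, hfd] at h1
    exact h1.symm
  have hpr : pr x = pr (F 0) := by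
    rw [← hφx, ← hφF 0, zero_smul, add_zero]
  obtain ⟨α, hα, hxα⟩ := (Pool.Agent.H62.EF.pr_eq_iff hx (hF0 0)).1 hpr
  unfold pT
  rw [hxα, pval_smul S.cone (S.smoS hφ hy hD) P (hF0 0) (hsl 0) hα, hf0, mul_zero]

theorem pzs (S : TDat X Λ u a ν b E D Bad SS) (ha : ‖a‖ = 1) {P : JForm X Λ u ν m} (hA : AlgP D P) (hφ : φ ∈ SS) {y : Vd (k + 1)} (hy : y ∈ Tb b E) :
    PZs P a y (Dz D a ν y) (sl φ a ν y) := by
  intro s z hsz x hx hφx
  have hy' := S.tb hy s z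
  have hD' : y + (s : ℂ) • ν + z • a ∉ D := hsz
  rw [pval_pT S.cone P ((S.sdat hφ hy).smo s z hsz) (S.smoS hφ hy' hD') hx hφx]
  exact pT_zero S ha hA hφ hy' hD' hx hφx

end Pool.Agent.G4.C
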