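import Pool.Agent.H94.G4T.G4.C.JNv_1
import Pool.Agent.H94.G4T.G4.C.PT
import Pool.Agent.H94.G4T.M96

/-!
# G4 C PoC: the order of the poles of the jet form on the sheets

`pole`: `‖pT P a φ (y + z a) (F z)‖ * ‖z - z₀‖ ^ M` is bounded near `z₀`, `M` uniform.  `smn_box`: in a box the curves are smooth in the chart `nv v`.  `pval_nc`: the value of the jet form on the normalised curve.
-/

set_option autoImplicit false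

open Topology Filter Metric

namespace Pool.Agent.G4.C

open Pool.Agent.H36.BP (EN fs wd)
open Pool.Agent.H14.PP (IsCone)
open Pool.Agent.H62.EF (MN pr)
open Pool.Agent.AD (Vd Chart Charts)
open Pool.Agent.TG (TMap Lat Str ms tl Gd gd_near gd_mono gd_notMem)
open Pool.Agent.G3.A (Tb Hc NL)
open Pool.Agent.G3.C

variable {N k : ℕ} {X : Set (EN N)} {Λ : AddSubgroup (Vd (k + 1))} {u : EN N → Vd (k + 1)} {ν a b c : Vd (k + 1)} {m : ℕ} {ρ : ℝ} {E : Submodule ℝ (Vd (k + 1))}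
  {D Bad : Set (Vd (k + 1))} {SS : Set (Vd (k + 1) → MN N)}

theorem smn_box {Φ : ℝ → ℂ → MN N} {χ : Chart (k + 2) X} {w : ℕ → ℝ → ℂ → ℂ} {z : ℂ} {r : ℝ} (B : Box X Λ u a ν b Φ χ c ρ w 0 z r) {v : EN N}
    (hv : (inner ℂ v (χ.σ (cz b ν a c ρ (w 0 0 z) ((0 : ℝ) : ℂ) z)) : ℂ) ≠ 0) : SmN v Φ z := by
  have hs : (0 : ℝ) ∈ Set.Ioo (0 - r) (0 + r) := ⟨by linarith [B.pos], by linarith [B.pos]⟩
  have hz : z ∈ ball z r := mem_ball_self B.pos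
  have hnh : Set.Ioo (0 - r) (0 + r) ×ˢ ball z r ∈ 𝓝 ((0, z) : ℝ × ℂ) := (isOpen_Ioo.prod isOpen_ball).mem_nhds ⟨hs, hz⟩
  have hcz0 : cz b ν a c ρ (w 0 0 z) ((0 : ℝ) : ℂ) z ∈ ball (0 : Vd (k + 2)) 2 := B.mem 0 hs z hz
  have hσc : ContinuousAt (fun q : ℝ × ℂ => (inner ℂ v (χ.σ (cz b ν a c ρ (w 0 q.1 q.2) q.1 q.2)) : ℂ)) (0, z) := by
    have hw : ContinuousAt (fun q : ℝ × ℂ => w 0 q.1 q.2) (0, z) := (B.jet.cont 0).continuousAt hnh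
    have hre : ContinuousAt (fun q : ℝ × ℂ => (q.1 : ℂ)) (0, z) := by fun_prop
    have h1 : ContinuousAt (fun p : ℂ × ℂ × ℂ => cz b ν a c ρ p.1 p.2.1 p.2.2) (w 0 0 z, ((0 : ℝ) : ℂ), z) :=
      (cz_analytic analyticAt_fst (analyticAt_fst.fun_comp analyticAt_snd) (analyticAt_snd.fun_comp analyticAt_snd)).continuousAt
    have h2 : ContinuousAt (fun q : ℝ × ℂ => cz b ν a c ρ (w 0 q.1 q.2) q.1 q.2) (0, z) :=
      ContinuousAt.comp (g := fun p : ℂ × ℂ × ℂ => cz b ν a c ρ p.1 p.2.1 p.2.2) (f := fun q : ℝ × ℂ => (w 0 q.1 q.2, (q.1 : ℂ), q.2)) h1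
        (hw.prodMk (hre.prodMk continuousAt_snd))
    have h3 : ContinuousAt (fun q : ℝ × ℂ => χ.σ (cz b ν a c ρ (w 0 q.1 q.2) q.1 q.2)) (0, z) :=
      ContinuousAt.comp (g := χ.σ) (f := fun q : ℝ × ℂ => cz b ν a c ρ (w 0 q.1 q.2) q.1 q.2) (χ.σ_an _ hcz0).continuousAt h2
    exact ContinuousAt.comp (g := fun x : EN N => (inner ℂ v x : ℂ)) (f := fun q : ℝ × ℂ => χ.σ (cz b ν a c ρ (w 0 q.1 q.2) q.1 q.2))
      (innerSL ℂ v).continuous.continuousAt h3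
  obtain ⟨r₁, hr₁, hne⟩ := Metric.eventually_nhds_iff_ball.1 (hσc.eventually_ne hv)
  obtain ⟨r', hr'd⟩ : ∃ r', r' = min r r₁ := ⟨_, rfl⟩
  have hr' : 0 < r' := by rw [hr'd]; exact lt_min B.pos hr₁
  have hr'r : r' ≤ r := by rw [hr'd]; exact min_le_left _ _
  have hr'r₁ : r' ≤ r₁ := by rw [hr'd]; exact min_le_right _ _
  have hI : Set.Ioo (-r') r' ⊆ Set.Ioo (0 - r) (0 + r) := Set.Ioo_subset_Ioo (by linarith) (by linarith)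
  have hD : ball z r' ⊆ ball z r := ball_subset_ball hr'r
  have hJ : JetFam w (Set.Ioo (-r') r') (ball z r') :=
    ⟨fun j s hs z hz => B.jet.der j s (hI hs) z (hD hz), fun j => (B.jet.cont j).mono (Set.prod_mono hI hD), fun j s hs => (B.jet.hol j s (hI hs)).mono hD⟩
  have hne' : ∀ t ∈ Set.Ioo (-r') r', ∀ y ∈ ball z r', (inner ℂ v (χ.σ (cz b ν a c ρ (w 0 t y) t y)) : ℂ) ≠ 0 := by
    intro t ht y hy
    refine hne (t, y) ?_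
    rw [mem_ball, Prod.dist_eq]
    refine max_lt ?_ ((mem_ball.1 hy).trans_le hr'r₁)
    rw [Real.dist_eq, abs_lt]
    constructor <;> linarith [ht.1, ht.2]
  obtain ⟨O, hO⟩ : ∃ O : Set (ℂ × ℂ × (Unit → ℂ)), O = {p | cz b ν a c ρ (p.2.2 ()) p.1 p.2.1 ∈ ball (0 : Vd (k + 2)) 2 ∧
      (inner ℂ v (χ.σ (cz b ν a c ρ (p.2.2 ()) p.1 p.2.1)) : ℂ) ≠ 0} := ⟨_, rfl⟩
  have hV : ∀ i : Fin (N + 1), ∃ V : ℕ → ℝ → ℂ → ℂ, JetFam V (Set.Ioo (-r') r') (ball z r') ∧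
      ∀ t ∈ Set.Ioo (-r') r', ∀ y ∈ ball z r', V 0 t y = (inner ℂ v (χ.σ (cz b ν a c ρ (w 0 t y) t y)) : ℂ)⁻¹ * χ.σ (cz b ν a c ρ (w 0 t y) t y) i := by
    intro i
    refine JetFam.comp (ι := Unit) (f := fun _ => w) isOpen_Ioo isOpen_ball (fun _ => hJ) (O := O)
      (Q := fun p => (inner ℂ v (χ.σ (cz b ν a c ρ (p.2.2 ()) p.1 p.2.1)) : ℂ)⁻¹ * χ.σ (cz b ν a c ρ (p.2.2 ()) p.1 p.2.1) i) ?_ ?_
    · intro p hp
      rw [hO] at hp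
      have h1 : AnalyticAt ℂ (fun p : ℂ × ℂ × (Unit → ℂ) => cz b ν a c ρ (p.2.2 ()) p.1 p.2.1) p := by
        refine cz_analytic ?_ analyticAt_fst (AnalyticAt.fun_comp (g := Prod.fst) analyticAt_fst analyticAt_snd)
        have h2 : AnalyticAt ℂ (fun p : ℂ × ℂ × (Unit → ℂ) => p.2.2) p := AnalyticAt.fun_comp (g := Prod.snd) analyticAt_snd analyticAt_snd
        exact analyticAt_pi_iff.1 h2 ()
      have h2 : AnalyticAt ℂ (fun p : ℂ × ℂ × (Unit → ℂ) => χ.σ (cz b ν a c ρ (p.2.2 ()) p.1 p.2.1)) p :=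
        AnalyticAt.fun_comp (g := χ.σ) (f := fun p : ℂ × ℂ × (Unit → ℂ) => cz b ν a c ρ (p.2.2 ()) p.1 p.2.1) (χ.σ_an _ hp.1) h1
      have h3 : AnalyticAt ℂ (fun p : ℂ × ℂ × (Unit → ℂ) => (inner ℂ v (χ.σ (cz b ν a c ρ (p.2.2 ()) p.1 p.2.1)) : ℂ)) p :=
        AnalyticAt.fun_comp (g := fun x : EN N => (inner ℂ v x : ℂ)) ((innerSL ℂ v).analyticAt _) h2
      have h4 : AnalyticAt ℂ (fun p : ℂ × ℂ × (Unit → ℂ) => χ.σ (cz b ν a c ρ (p.2.2 ()) p.1 p.2.1) i) p :=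
        AnalyticAt.fun_comp (g := fun x : EN N => x i) ((EuclideanSpace.proj (𝕜 := ℂ) i : EN N →L[ℂ] ℂ).analyticAt _) h2
      exact (h3.inv hp.2).mul h4
    · intro t ht y hy
      rw [hO]
      exact ⟨B.mem t (hI ht) y (hD hy), hne' t ht y hy⟩
  choose V hVJ hV0 using hV
  refine ⟨fun j s z => WithLp.toLp 2 fun i => V i j s z, r', hr', fun j s hs z' hz' => ?_, fun j => ?_, fun s hs z' hz' => ?_⟩
  · have h1 : HasDerivAt (fun t : ℝ => (fun i => V i j t z' : Fin (N + 1) → ℂ)) (fun i => V i (j + 1) s z') s := by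
      rw [hasDerivAt_pi]
      intro i
      exact (hVJ i).der j s hs z' hz'
    exact ((PiLp.continuousLinearEquiv 2 ℝ (fun _ : Fin (N + 1) => ℂ)).symm : (Fin (N + 1) → ℂ) →L[ℝ] EN N).hasFDerivAt.comp_hasDerivAt s h1
  · exact (PiLp.continuous_toLp 2 _).comp_continuousOn (continuousOn_pi.2 fun i => (hVJ i).cont j)
  · have h0 := hne' s hs z' hz'
    have hx0 : χ.σ (cz b ν a c ρ (w 0 s z') s z') ≠ 0 := fun h => by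
      rw [h, inner_zero_right] at h0
      exact h0 rfl
    rw [B.eq s (hI hs) z' (hD hz')]
    refine ⟨(nd_pr_ne hx0).2 h0, ?_⟩
    rw [nv_pr h0]
    ext i
    show (inner ℂ v (χ.σ (cz b ν a c ρ (w 0 s z') s z')) : ℂ)⁻¹ * χ.σ (cz b ν a c ρ (w 0 s z') s z') i = V i 0 s z'
    rw [hV0 i s hs z' hz']

/-- the value of the jet form on the normalised curve -/
theorem pval_nc (hX : IsCone X) (ht : TMap X Λ u) {Φ : ℝ → ℂ → MN N} {χ : Chart (k + 2) X} {w : ℕ → ℝ → ℂ → ℂ} {z : ℂ} {r : ℝ} (B : Box X Λ u a ν b Φ χ c ρ w 0 z r)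
    (P : JForm X Λ u ν m) {v x : EN N} (hx : x ≠ 0) (hΦ : Φ 0 z = pr x) (hv : (inner ℂ v x : ℂ) ≠ 0) :
    ∃ ψ : ℂ → EN N, DirC X Λ u ν ψ ∧ ψ 0 = (inner ℂ v x : ℂ)⁻¹ • x ∧ (∀ j : Fin (m + 1), jt m ψ j = iteratedDeriv j (fun t : ℝ => nv v (Φ t z)) 0) ∧
      pval P a b Φ 0 z x = P.toFun (jt m ψ) * (inner ℂ v x : ℂ)⁻¹ := by
  have hs : (0 : ℝ) ∈ Set.Ioo (0 - r) (0 + r) := ⟨by linarith [B.pos], by linarith [B.pos]⟩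
  have hz : z ∈ ball z r := mem_ball_self B.pos
  have hm := B.mem 0 hs z hz
  have h1 := B.eq 0 hs z hz
  rw [hΦ] at h1
  have hσX := (χ.σ_mem _ hm).1
  have hσ0 : χ.σ (cz b ν a c ρ (w 0 0 z) ((0 : ℝ) : ℂ) z) ≠ 0 := fun h0 => hX.zero_notMem (h0 ▸ hσX)
  obtain ⟨α, hα0, hα⟩ := (Pool.Agent.H62.EF.pr_eq_iff hσ0 hx).1 h1.symm
  have hvσ : (inner ℂ v (χ.σ (cz b ν a c ρ (w 0 0 z) ((0 : ℝ) : ℂ) z)) : ℂ) = α * inner ℂ v x := by rw [hα, inner_smul_right]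
  have hvσ0 : (inner ℂ v (χ.σ (cz b ν a c ρ (w 0 0 z) ((0 : ℝ) : ℂ) z)) : ℂ) ≠ 0 := by
    rw [hvσ]
    exact mul_ne_zero hα0 hv
  have hq : Jt m w 0 z ∈ OD b ν a c ρ m := hm
  have hdir := crv_dir (m := m) B.str hq
  obtain ⟨γ, hγ⟩ : ∃ γ : ℂ → EN N, γ = crv b ν a χ c ρ (Jt m w 0 z) := ⟨_, rfl⟩
  rw [← hγ] at hdir
  have hγ0 : γ 0 = χ.σ (cz b ν a c ρ (w 0 0 z) ((0 : ℝ) : ℂ) z) := by
    rw [hγ]
    unfold crv
    rw [pol_zero, add_zero]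
    rfl
  have hin : AnalyticAt ℂ (fun t => (inner ℂ v (γ t) : ℂ)) 0 :=
    AnalyticAt.fun_comp (g := fun x : EN N => (inner ℂ v x : ℂ)) ((innerSL ℂ v).analyticAt _) hdir.1
  have hin0 : (inner ℂ v (γ 0) : ℂ) ≠ 0 := by
    rw [hγ0]
    exact hvσ0
  have hinv : AnalyticAt ℂ (fun t => (inner ℂ v (γ t) : ℂ)⁻¹) 0 := hin.inv hin0
  have hγX : γ 0 ∈ X := hdir.2.self_of_nhds.1
  refine ⟨fun t => (inner ℂ v (γ t) : ℂ)⁻¹ • γ t, ⟨hinv.smul hdir.1, ?_⟩, ?_, fun j => ?_, ?_⟩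
  · have hne : ∀ᶠ t in 𝓝 (0 : ℂ), (inner ℂ v (γ t) : ℂ) ≠ 0 := hin.continuousAt.eventually_ne hin0
    filter_upwards [hdir.2, hne] with t ht1 ht2
    refine ⟨hX.smul_mem _ ht1.1 _ (inv_ne_zero ht2), ?_⟩
    have h2 := ht.smul _ ht1.1 _ (inv_ne_zero ht2)
    have h3 := ht.smul _ hγX _ (inv_ne_zero hin0)
    have e : u ((inner ℂ v (γ t) : ℂ)⁻¹ • γ t) - (u ((inner ℂ v (γ 0) : ℂ)⁻¹ • γ 0) + t • ν) =
        (u ((inner ℂ v (γ t) : ℂ)⁻¹ • γ t) - u (γ t)) - (u ((inner ℂ v (γ 0) : ℂ)⁻¹ • γ 0) - u (γ 0)) + (u (γ t) - (u (γ 0) + t • ν)) := by abel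
    rw [e]
    exact Λ.add_mem (Λ.sub_mem h2 h3) ht1.2
  · show (inner ℂ v (γ 0) : ℂ)⁻¹ • γ 0 = (inner ℂ v x : ℂ)⁻¹ • x
    rw [hγ0, hvσ, hα, smul_smul]
    congr 1
    field_simp
  · have h4 := jet_nv B hvσ0 m j
    simp only [zero_add] at h4
    rw [← h4, hγ]
  · rw [P.scale γ hdir _ hinv (inv_ne_zero hin0), pval_eq hX B P hα hα0]
    unfold QF
    rw [← hγ, inv_inv, hγ0, hvσ]
    field_simp

theorem pole (S : TDat X Λ u a ν b E D Bad SS) (ha : ‖a‖ = 1) {P : JForm X Λ u ν m} (hA : AlgP D P) :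
    ∃ M : ℕ, ∀ φ ∈ SS, ∀ y ∈ Tb b E, ∀ F ∈ Gc X Λ u a y, (∀ z : ℂ, φ (y + z • a) = pr (F z)) → ∀ z₀ : ℂ,
      ∃ C : ℝ, ∀ᶠ z in 𝓝[≠] z₀, ‖pT P a φ (y + z • a) (F z)‖ * ‖z - z₀‖ ^ M ≤ C := by
  obtain ⟨r, e, R, Q, C, MQ, hR, hh, hz, hQ, hRQ⟩ := hA
  obtain ⟨M₁, hM₁⟩ := alg_lb S ha hR hh hz
  obtain ⟨δ, hδ, hcirc⟩ := S.circ ha (η := 1 / 8) (by norm_num)
  obtain ⟨c, hc, hnl⟩ := S.nl (δ / 2) (half_pos hδ)
  obtain ⟨M₀, hM₀⟩ : ∃ M₀ : ℕ, (N + 1 : ℝ) < c * 16 ^ (M₀ + 1) := by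
    obtain ⟨n, hn⟩ := pow_unbounded_of_one_lt ((N + 1 : ℝ) / c) (show (1 : ℝ) < 16 by norm_num)
    refine ⟨n, ?_⟩
    rw [div_lt_iff₀ hc] at hn
    have h1 : (16 : ℝ) ^ n ≤ 16 ^ (n + 1) := pow_le_pow_right₀ (by norm_num) (Nat.le_succ n)
    calc (N + 1 : ℝ) < 16 ^ n * c := hn
      _ ≤ 16 ^ (n + 1) * c := by gcongr
      _ = c * 16 ^ (n + 1) := mul_comm _ _
  refine ⟨(m + 1) * M₀ * MQ + M₁, fun φ hφ y hy F hF hFφ z₀ => ?_⟩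
  have hF0 : ∀ z, F z ≠ 0 := fun z h0 => S.cone.zero_notMem (h0 ▸ hF.2.1 z)
  obtain ⟨v, hv⟩ : ∃ v, v = F z₀ := ⟨_, rfl⟩
  have hv0 : (inner ℂ v (F z₀) : ℂ) ≠ 0 := by
    rw [hv]
    exact inner_self_ne_zero.2 (hF0 z₀)
  obtain ⟨Φ, hΦ⟩ : ∃ Φ, Φ = sl φ a ν y := ⟨_, rfl⟩
  have SD := S.sdat hφ hy
  rw [← hΦ] at SD
  have e0 : ∀ z : ℂ, y + ((0 : ℝ) : ℂ) • ν + z • a = y + z • a := fun z => by simp
  have hΦ0 : ∀ z, Φ 0 z = pr (F z) := fun z => by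
    rw [hΦ, ← hFφ z]
    show φ (y + ((0 : ℝ) : ℂ) • ν + z • a) = φ (y + z • a)
    rw [e0]
  -- the lower bounds for the normalised lifts
  obtain ⟨r₁, hr₁, hr₁8, hcr⟩ := hcirc (y + z₀ • a)
  obtain ⟨z₁, hz₁⟩ : ∃ z₁ : ℂ, z₁ = z₀ + r₁ := ⟨_, rfl⟩
  have hz₁8 : ‖z₁ - z₀‖ ≤ 1 / 8 := by
    rw [hz₁, add_sub_cancel_left, Complex.norm_real, Real.norm_of_nonneg hr₁.le]
    exact hr₁8.le
  have hz₁G : y + z₁ • a ∈ Gd D δ := by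
    have h1 := hcr (r₁ : ℂ) (by rw [Complex.norm_real, Real.norm_of_nonneg hr₁.le])
    rw [hz₁, add_smul, ← add_assoc]
    exact h1
  have hFs : ∀ᶠ s : ℝ in 𝓝 0, ∃ G : ℂ → EN N, DifferentiableOn ℂ G (ball z₀ 2) ∧ (∀ z ∈ ball z₀ 2, G z ≠ 0 ∧ Φ s z = pr (G z) ∧ ‖G z‖ ≤ 1) ∧ c ≤ ‖G z₁‖ := by
    have h1 : ∀ᶠ s : ℝ in 𝓝 0, ‖(s : ℂ) • ν‖ < δ / 2 := by
      have h3 : Continuous fun s : ℝ => ‖(s : ℂ) • ν‖ := by fun_prop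
      have h2 := h3.tendsto 0
      rw [Complex.ofReal_zero, zero_smul, norm_zero] at h2
      exact h2.eventually_lt_const (half_pos hδ)
    filter_upwards [h1] with s hs
    obtain ⟨Fs, hFs, hFsΦ⟩ := SD.lift s
    obtain ⟨G, hG1, hG2, hG3⟩ := hnl (y + (s : ℂ) • ν) (Φ s) ⟨Fs, hFs, funext hFsΦ⟩ z₀
    refine ⟨G, hG1, fun z hz => ?_, hG3 z₁ ?_ ?_⟩
    · obtain ⟨h2, h3, h4⟩ := hG2 z hz
      exact ⟨fun h0 => S.cone.zero_notMem (h0 ▸ h2), h3, h4⟩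
    · rw [mem_closedBall, dist_eq_norm]
      linarith
    · have h2 := gd_near hz₁G (w := y + (s : ℂ) • ν + z₁ • a) (r := δ / 2) (by
        have e1 : y + (s : ℂ) • ν + z₁ • a - (y + z₁ • a) = (s : ℂ) • ν := by abel
        rw [e1]
        exact hs.le)
      have e2 : δ - δ / 2 = δ / 2 := by ring
      rwa [e2] at h2
  have hjet := jet_pole (Φ := Φ) (z₀ := z₀) (z₁ := z₁) (S := {z | y + z • a ∈ D}) (v := v) (c := c) (M := M₀) hc hM₀ hz₁8 (S.iso y z₀) hFs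
    ⟨F, hF.1.continuous.continuousAt, hv0, Eventually.of_forall hΦ0⟩ (fun z hzD hnd => by
      obtain ⟨χ, c', ρ, w, r', B⟩ := SD.smo 0 z (show ¬ (y + ((0 : ℝ) : ℂ) • ν + z • a ∈ D) by rw [e0]; exact hzD)
      refine smn_box B ?_
      have h1 := B.eq 0 ⟨by linarith [B.pos], by linarith [B.pos]⟩ z (mem_ball_self B.pos)
      have h2 := (χ.σ_mem _ (B.mem 0 ⟨by linarith [B.pos], by linarith [B.pos]⟩ z (mem_ball_self B.pos))).1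
      rw [h1] at hnd
      exact (nd_pr_ne (fun h0 => S.cone.zero_notMem (h0 ▸ h2))).1 hnd)
  choose Cj hCj using hjet
  obtain ⟨i, c₁, hc₁, hi⟩ := hM₁ y F hF z₀
  -- the linear form
  have hWc : Continuous fun z => ‖(inner ℂ v (F z) : ℂ)‖ := ((innerSL ℂ v).continuous.comp hF.1.continuous).norm
  obtain ⟨κ, hκ⟩ : ∃ κ, κ = ‖(inner ℂ v (F z₀) : ℂ)‖ / 2 := ⟨_, rfl⟩
  have hκ0 : 0 < κ := by
    rw [hκ]
    exact half_pos (norm_pos_iff.2 hv0)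
  have hW1 : ∀ᶠ z in 𝓝 z₀, κ < ‖(inner ℂ v (F z) : ℂ)‖ := hWc.continuousAt.eventually_const_lt (by
    rw [hκ] at hκ0 ⊢
    linarith)
  have hW2 : ∀ᶠ z in 𝓝 z₀, ‖(inner ℂ v (F z) : ℂ)‖ < 4 * κ := hWc.continuousAt.eventually_lt_const (by
    rw [hκ] at hκ0 ⊢
    linarith)
  obtain ⟨B₀, hB₀⟩ : ∃ B₀, B₀ = 1 + ∑ j : Fin (m + 1), Cj j := ⟨_, rfl⟩
  refine ⟨|C| * B₀ ^ MQ * (4 * κ) ^ e * κ⁻¹ / c₁, ?_⟩
  have hjall : ∀ᶠ z in 𝓝[≠] z₀, ∀ j : Fin (m + 1), ‖iteratedDeriv j (fun s : ℝ => nv v (Φ s z)) 0‖ * ‖z - z₀‖ ^ (((j : ℕ) + 1) * M₀) ≤ Cj j :=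
    eventually_all.2 fun j => hCj j
  have hb1 : ∀ᶠ z in 𝓝 z₀, z ∈ ball z₀ 1 := ball_mem_nhds z₀ one_pos
  filter_upwards [hjall, hi, S.iso y z₀, hW1.filter_mono nhdsWithin_le_nhds, hW2.filter_mono nhdsWithin_le_nhds, hb1.filter_mono nhdsWithin_le_nhds] with z hj hiz hzD hz1 hz2 hz3
  have hvz : (inner ℂ v (F z) : ℂ) ≠ 0 := fun h => by
    rw [h, norm_zero] at hz1
    linarith
  obtain ⟨χ, c', ρ, w, r', B⟩ := SD.smo 0 z (show ¬ (y + ((0 : ℝ) : ℂ) • ν + z • a ∈ D) by rw [e0]; exact hzD)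
  obtain ⟨ψ, hψd, hψ0, hψj, hψv⟩ := pval_nc S.cone S.tor B P (hF0 z) (hΦ0 z) hvz
  have hpT : pT P a φ (y + z • a) (F z) = P.toFun (jt m ψ) * (inner ℂ v (F z) : ℂ)⁻¹ := by
    rw [← hψv, hΦ]
    have hyz : y + ((0 : ℝ) : ℂ) • ν + z • a ∉ D := by rw [e0]; exact hzD
    have h1 := pval_pT S.cone P (b := y) (φ := φ) (s := 0) (z := z) (x := F z) ((S.sdat hφ hy).smo 0 z hyz) (S.smoS hφ (S.tb hy 0 z) hyz) (hF0 z) (by rw [e0]; exact hFφ z)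
    rw [e0] at h1
    exact h1.symm
  have hψD : ∀ y' ∈ D, u (ψ 0) - y' ∉ Λ := by
    intro y' hy' hmem
    refine hzD ?_
    have h1 := hF.2.2 z
    have h2 := S.tor.smul _ (hF.2.1 z) _ (inv_ne_zero hvz)
    rw [hψ0] at hmem
    have h3 := S.D_inv y' hy' _ (Λ.sub_mem hmem (Λ.add_mem h2 h1))
    have e1 : y' + (u ((inner ℂ v (F z) : ℂ)⁻¹ • F z) - y' - (u ((inner ℂ v (F z) : ℂ)⁻¹ • F z) - u (F z) + (u (F z) - (y + z • a)))) = y + z • a := by abel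
    rwa [e1] at h3
  have hRQz := hRQ i ψ hψd hψD
  rw [hψ0, hh] at hRQz
  -- the norms
  obtain ⟨t, ht⟩ : ∃ t, t = ‖z - z₀‖ := ⟨_, rfl⟩
  have ht0 : 0 ≤ t := by rw [ht]; exact norm_nonneg _
  have ht1 : t ≤ 1 := by
    rw [ht, ← dist_eq_norm]
    exact (mem_ball.1 hz3).le
  obtain ⟨W, hW⟩ : ∃ W, W = ‖(inner ℂ v (F z) : ℂ)‖ := ⟨_, rfl⟩
  rw [← hW] at hz1 hz2
  have hW0 : 0 < W := hκ0.trans hz1
  rw [← ht] at hiz ⊢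
  obtain ⟨p, hp⟩ : ∃ p, p = ‖P.toFun (jt m ψ)‖ := ⟨_, rfl⟩
  obtain ⟨q, hq⟩ : ∃ q, q = ‖R i (F z)‖ := ⟨_, rfl⟩
  have hp0 : 0 ≤ p := by rw [hp]; exact norm_nonneg _
  have hq0 : 0 ≤ q := by rw [hq]; exact norm_nonneg _
  rw [← hq] at hiz
  have hQn : p * q = ‖Q i (jt m ψ)‖ * W ^ e := by
    have h1 := congrArg norm hRQz
    rw [norm_mul, norm_mul, norm_pow, norm_inv, ← hW, ← hq, ← hp] at h1
    rw [← h1]
    have h2 : W⁻¹ ^ e * W ^ e = 1 := by rw [← mul_pow, inv_mul_cancel₀ hW0.ne', one_pow]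
    calc p * q = (W⁻¹ ^ e * W ^ e) * (p * q) := by rw [h2, one_mul]
      _ = _ := by ring
  have hsum : (1 + ∑ j, ‖jt m ψ j‖) * t ^ ((m + 1) * M₀) ≤ B₀ := by
    rw [add_mul, one_mul, Finset.sum_mul, hB₀]
    refine add_le_add (pow_le_one₀ ht0 ht1) (Finset.sum_le_sum fun j _ => ?_)
    have h1 := hj j
    rw [← ht] at h1
    rw [hψj]
    refine le_trans (mul_le_mul_of_nonneg_left (pow_le_pow_of_le_one ht0 ht1 ?_) (norm_nonneg _)) h1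
    exact Nat.mul_le_mul_right _ (by omega)
  have hsum0 : 0 ≤ 1 + ∑ j, ‖jt m ψ j‖ := by positivity
  have hB0 : 0 ≤ B₀ := (mul_nonneg hsum0 (pow_nonneg ht0 _)).trans hsum
  have hQb : ‖Q i (jt m ψ)‖ * t ^ ((m + 1) * M₀ * MQ) ≤ |C| * B₀ ^ MQ := by
    calc ‖Q i (jt m ψ)‖ * t ^ ((m + 1) * M₀ * MQ) ≤ (|C| * (1 + ∑ j, ‖jt m ψ j‖) ^ MQ) * t ^ ((m + 1) * M₀ * MQ) := by
          refine mul_le_mul_of_nonneg_right ((hQ i (jt m ψ)).trans ?_) (pow_nonneg ht0 _)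
          exact mul_le_mul_of_nonneg_right (le_abs_self C) (pow_nonneg hsum0 _)
      _ = |C| * ((1 + ∑ j, ‖jt m ψ j‖) * t ^ ((m + 1) * M₀)) ^ MQ := by
          rw [mul_pow, ← pow_mul]
          ring
      _ ≤ |C| * B₀ ^ MQ := by
          refine mul_le_mul_of_nonneg_left ?_ (abs_nonneg C)
          exact pow_le_pow_left₀ (mul_nonneg hsum0 (pow_nonneg ht0 _)) hsum _
  rw [hpT, norm_mul, norm_inv, ← hp, ← hW, pow_add, le_div_iff₀ hc₁]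
  have hWi : W⁻¹ ≤ κ⁻¹ := inv_anti₀ hκ0 hz1.le
  have hWe : W ^ e ≤ (4 * κ) ^ e := pow_le_pow_left₀ hW0.le hz2.le _
  calc p * W⁻¹ * (t ^ ((m + 1) * M₀ * MQ) * t ^ M₁) * c₁ = p * W⁻¹ * t ^ ((m + 1) * M₀ * MQ) * (c₁ * t ^ M₁) := by ring
    _ ≤ p * W⁻¹ * t ^ ((m + 1) * M₀ * MQ) * q := by
        refine mul_le_mul_of_nonneg_left hiz (mul_nonneg (mul_nonneg hp0 (inv_nonneg.2 hW0.le)) (pow_nonneg ht0 _))
    _ = (p * q) * t ^ ((m + 1) * M₀ * MQ) * W⁻¹ := by ring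
    _ = (‖Q i (jt m ψ)‖ * t ^ ((m + 1) * M₀ * MQ)) * W ^ e * W⁻¹ := by rw [hQn]; ring
    _ ≤ (|C| * B₀ ^ MQ) * (4 * κ) ^ e * κ⁻¹ := by
        have h1 : 0 ≤ ‖Q i (jt m ψ)‖ * t ^ ((m + 1) * M₀ * MQ) := mul_nonneg (norm_nonneg _) (pow_nonneg ht0 _)
        have h2 : 0 ≤ |C| * B₀ ^ MQ := mul_nonneg (abs_nonneg C) (pow_nonneg hB0 _)
        refine mul_le_mul (mul_le_mul hQb hWe (pow_nonneg hW0.le _) h2) hWi (inv_nonneg.2 hW0.le) ?_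
        exact mul_nonneg h2 (pow_nonneg (by linarith) _)

end Pool.Agent.G4.C
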